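import Pool.Agent.Y811.PC.Stm4

/-!
# `S_FE`: invariance of the quadratic differential
-/

set_option autoImplicit false

namespace Pool.Agent.Y153.PC

open Filter Topology Pool.Agent.Y811.PC

lemma om_prim {d : ℕ} (hd : 2 ≤ d) : IsPrimitiveRoot (om d) d :=
  Complex.isPrimitiveRoot_exp d (by omega)

lemma sum_om {d : ℕ} (hd : 2 ≤ d) (e : ℕ) :
    ∑ k ∈ Finset.range d, om d ^ (k * e) = if d ∣ e then (d : ℂ) else 0 := by
  have h := om_prim hd
  have e1 : ∀ k, om d ^ (k * e) = (om d ^ e) ^ k := fun k => by rw [← pow_mul, mul_comm]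
  simp only [e1]
  split_ifs with hde
  · have h1 : om d ^ e = 1 := (h.pow_eq_one_iff_dvd e).2 hde
    simp [h1]
  · have h1 : om d ^ e ≠ 1 := fun h' => hde ((h.pow_eq_one_iff_dvd e).1 h')
    have h2 := mul_geom_sum (om d ^ e) d
    have h3 : (om d ^ e) ^ d = 1 := by
      rw [← pow_mul, mul_comm, pow_mul, h.pow_eq_one, one_pow]
    rw [h3, sub_self] at h2
    exact (mul_eq_zero.1 h2).resolve_left (sub_ne_zero.2 h1)

lemma om_ne {d : ℕ} (hd : 2 ≤ d) {w b : ℂ} (h : w ^ d ≠ b ^ d) (k : ℕ) :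
    om d ^ k * w - b ≠ 0 := by
  intro h'
  apply h
  rw [← sub_eq_zero.1 h', mul_pow, ← pow_mul, mul_comm k d, pow_mul, (om_prim hd).pow_eq_one,
    one_pow, one_mul]

lemma id1 {d : ℕ} (hd : 2 ≤ d) {w b : ℂ} (h : w ^ d ≠ b ^ d) :
    ∑ k ∈ Finset.range d, om d ^ (2 * k) / (om d ^ k * w - b) =
      d * b * w ^ (d - 2) / (w ^ d - b ^ d) := by
  have hne : w ^ d - b ^ d ≠ 0 := sub_ne_zero.2 h
  have hp := om_prim hd
  have hx : ∀ k, (om d ^ k * w) ^ d = w ^ d := fun k => by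
    rw [mul_pow, ← pow_mul, mul_comm k d, pow_mul, hp.pow_eq_one, one_pow, one_mul]
  rw [eq_div_iff hne, Finset.sum_mul]
  have h1 : ∀ k, om d ^ (2 * k) / (om d ^ k * w - b) * (w ^ d - b ^ d) =
      ∑ i ∈ Finset.range d, om d ^ (k * (i + 2)) * (w ^ i * b ^ (d - 1 - i)) := by
    intro k
    have h2 := geom_sum₂_mul (om d ^ k * w) b d
    rw [hx k] at h2
    rw [← h2, div_mul_eq_mul_div, ← mul_assoc, mul_div_cancel_right₀ _ (om_ne hd h k),
      Finset.mul_sum]
    refine Finset.sum_congr rfl fun i _ => ?_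
    rw [mul_pow, ← pow_mul, show k * (i + 2) = 2 * k + k * i by ring, pow_add]
    ring
  rw [Finset.sum_congr rfl fun k _ => h1 k, Finset.sum_comm]
  have h3 : ∀ i ∈ Finset.range d, ∑ k ∈ Finset.range d,
      om d ^ (k * (i + 2)) * (w ^ i * b ^ (d - 1 - i)) =
        if i = d - 2 then d * b * w ^ (d - 2) else 0 := by
    intro i hi
    rw [← Finset.sum_mul, sum_om hd]
    rw [Finset.mem_range] at hi
    split_ifs with h4 h5 h5
    · rw [h5, show d - 1 - (d - 2) = 1 by omega, pow_one]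
      ring
    · exfalso
      obtain ⟨c, hc⟩ := h4
      rcases c with _ | _ | c
      · omega
      · omega
      · have : d * (c + 1 + 1) = d * c + d + d := by ring
        have : 0 ≤ d * c := Nat.zero_le _
        omega
    · exfalso
      apply h4
      rw [h5, show d - 2 + 2 = d by omega]
    · rw [zero_mul]
  rw [Finset.sum_congr rfl h3, Finset.sum_ite_eq', if_pos (Finset.mem_range.2 (by omega))]

lemma id2 {d : ℕ} (hd : 2 ≤ d) {w b : ℂ} (h : w ^ d ≠ b ^ d) :
    ∑ k ∈ Finset.range d, om d ^ (2 * k) / (om d ^ k * w - b) ^ 2 =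
      d * w ^ (d - 2) * ((w ^ d - b ^ d) + d * b ^ d) / (w ^ d - b ^ d) ^ 2 := by
  have hne : w ^ d - b ^ d ≠ 0 := sub_ne_zero.2 h
  have hf : HasDerivAt (fun b : ℂ => ∑ k ∈ Finset.range d, om d ^ (2 * k) / (om d ^ k * w - b))
      (∑ k ∈ Finset.range d, om d ^ (2 * k) / (om d ^ k * w - b) ^ 2) b := by
    refine HasDerivAt.fun_sum fun k _ => ?_
    have h1 := ((hasDerivAt_const b (om d ^ k * w)).sub (hasDerivAt_id b)).inv (om_ne hd h k)
    have h2 := h1.const_mul (om d ^ (2 * k))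
    have e : om d ^ (2 * k) / (om d ^ k * w - b) ^ 2 =
        om d ^ (2 * k) * (-(0 - 1) / (om d ^ k * w - id b) ^ 2) := by
      simp only [id]
      ring
    rw [e]
    exact h2
  have hg : HasDerivAt (fun b : ℂ => (d : ℂ) * b * w ^ (d - 2) / (w ^ d - b ^ d))
      (d * w ^ (d - 2) * ((w ^ d - b ^ d) + d * b ^ d) / (w ^ d - b ^ d) ^ 2) b := by
    have h1 : HasDerivAt (fun b : ℂ => (d : ℂ) * b * w ^ (d - 2)) ((d : ℂ) * 1 * w ^ (d - 2)) b :=
      ((hasDerivAt_id b).const_mul (d : ℂ)).mul_const _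
    have h2 : HasDerivAt (fun b : ℂ => w ^ d - b ^ d) (0 - d * b ^ (d - 1)) b :=
      (hasDerivAt_const b (w ^ d)).sub (hasDerivAt_pow d b)
    have h3 := h1.div h2 hne
    have e : (d : ℂ) * w ^ (d - 2) * ((w ^ d - b ^ d) + d * b ^ d) / (w ^ d - b ^ d) ^ 2 =
        ((d : ℂ) * 1 * w ^ (d - 2) * (w ^ d - b ^ d) -
          (d : ℂ) * b * w ^ (d - 2) * (0 - d * b ^ (d - 1))) / (w ^ d - b ^ d) ^ 2 := by
      have e2 : b ^ d = b ^ (d - 1) * b := by
        rw [← pow_succ, show d - 1 + 1 = d by omega]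
      congr 1
      rw [e2]
      ring
    rw [e]
    exact h3
  have hev : (fun b : ℂ => ∑ k ∈ Finset.range d, om d ^ (2 * k) / (om d ^ k * w - b)) =ᶠ[𝓝 b]
      (fun b : ℂ => (d : ℂ) * b * w ^ (d - 2) / (w ^ d - b ^ d)) := by
    have h1 : ∀ᶠ b' in 𝓝 b, b' ^ d ≠ w ^ d :=
      (continuous_pow d).continuousAt.eventually_ne (Ne.symm h)
    filter_upwards [h1] with b' hb'
    exact id1 hd (Ne.symm hb')
  exact hf.unique (hg.congr_of_eventuallyEq hev)

theorem t_FE : S_FE := by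
  intro d m c b β A hC w hw
  have hd := hC.hd
  have hd0 : (d : ℂ) ≠ 0 := by
    rw [Nat.cast_ne_zero]
    omega
  have hf : ∀ f : ℕ → ℂ, f m = f 0 →
      ∑ j ∈ Finset.range m, f j = ∑ j ∈ Finset.range m, f (j + 1) := by
    intro f hf
    have h1 := Finset.sum_range_succ f m
    have h2 := Finset.sum_range_succ' f m
    rw [h1, hf] at h2
    exact add_right_cancel h2
  have hb0 : b m = b 0 := by
    have := hC.per 0
    rwa [zero_add] at this
  have hβ0 : β m = β 0 := by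
    have := hC.bper 0
    rwa [zero_add] at this
  have hL : gg m b β A (w ^ d + c) = ∑ j ∈ Finset.range m,
      (A / (w ^ d - b j ^ d) ^ 2 + β (j + 1) / (w ^ d - b j ^ d)) := by
    unfold gg
    rw [hf (fun j => A / (w ^ d + c - b j) ^ 2 + β j / (w ^ d + c - b j)) (by
      rw [hb0, hβ0])]
    refine Finset.sum_congr rfl fun j _ => ?_
    rw [hC.step j, show w ^ d + c - (b j ^ d + c) = w ^ d - b j ^ d by ring]
  have hR : ∑ k ∈ Finset.range d, om d ^ (2 * k) * gg m b β A (om d ^ k * w) =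
      ∑ j ∈ Finset.range m, (A * (d * w ^ (d - 2) * ((w ^ d - b j ^ d) + d * b j ^ d) /
        (w ^ d - b j ^ d) ^ 2) + β j * (d * b j * w ^ (d - 2) / (w ^ d - b j ^ d))) := by
    unfold gg
    simp only [Finset.mul_sum]
    rw [Finset.sum_comm]
    refine Finset.sum_congr rfl fun j hj => ?_
    rw [← id2 hd (hw j (Finset.mem_range.1 hj)), ← id1 hd (hw j (Finset.mem_range.1 hj)),
      Finset.mul_sum, Finset.mul_sum, ← Finset.sum_add_distrib]
    refine Finset.sum_congr rfl fun k _ => ?_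
    ring
  have key : ∀ j ∈ Finset.range m, (A / (w ^ d - b j ^ d) ^ 2 + β (j + 1) / (w ^ d - b j ^ d)) *
      ((d : ℂ) * w ^ (d - 1)) ^ 2 =
        (A * (d * w ^ (d - 2) * ((w ^ d - b j ^ d) + d * b j ^ d) /
          (w ^ d - b j ^ d) ^ 2) + β j * (d * b j * w ^ (d - 2) / (w ^ d - b j ^ d))) +
          d ^ 2 * w ^ (d - 2) * β (j + 1) := by
    intro j hj
    have hne : w ^ d - b j ^ d ≠ 0 := sub_ne_zero.2 (hw j (Finset.mem_range.1 hj))
    have hbj := hC.ne j
    have hu : (w ^ d - b j ^ d) * (w ^ d - b j ^ d)⁻¹ = 1 := mul_inv_cancel₀ hne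
    have hW : (w ^ (d - 1)) ^ 2 = w ^ (d - 2) * w ^ d := by
      rw [← pow_mul, ← pow_add]
      congr 1
      omega
    have e1 : (d : ℂ) * b j ^ d * β (j + 1) = β j * b j - ((d : ℂ) - 1) * A := by
      have e2 : b j ^ d = b j ^ (d - 1) * b j := by
        rw [← pow_succ, show d - 1 + 1 = d by omega]
      have hb1 : b j ^ (d - 1) ≠ 0 := pow_ne_zero _ hbj
      rw [hC.recu j, e2]
      field_simp
    rw [mul_pow, hW]
    simp only [div_eq_mul_inv, ← inv_pow]
    generalize (w ^ d - b j ^ d)⁻¹ = u at hu ⊢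
    generalize w ^ (d - 2) = W
    linear_combination d * W * (A * ((d : ℂ) - 1) * u + d * β (j + 1)) * hu + d * W * u * e1
  rw [hL, hR, Finset.sum_mul, Finset.sum_congr rfl key, Finset.sum_add_distrib, ← Finset.mul_sum,
    ← hf β hβ0, hC.sum, mul_zero, add_zero]

end Pool.Agent.Y153.PC
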